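import Pool.Agent.W586.GZ.Stm

/-!
Project GZ (MP_18b69d_an), subtask GZ-FACT: the factorization property of `c_0 + Z`.
-/

set_option autoImplicit false
open Filter Topology

namespace Pool.Agent.W683.GZF

open Pool.Agent.W586.GZ

theorem main (hMATX : S_MATX) (hMULT : S_MULT) (hSHRX : S_SHRX) (hINV : S_INV)
    (hSPARSE : S_SPARSE) (hLOW : S_LOW) (hABS : S_ABS) : S_FACT := by
  classical
  intro P X _ _ _ e e' hM T hT
  obtain ⟨δ, hδ, hdiag⟩ := hT
  have hI : Idl (WX P) := WX_idl P
  obtain ⟨m1, m2, m3⟩ := hMATX (WX P) X e e' hI hM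
  set t : ℕ → ℕ → ℝ := fun i j => e' i (T (e j)) with ht
  have hCB : CB (WX P) t ‖T‖ := m1 T
  obtain ⟨p, hp1, hp2, hp3⟩ := hSPARSE P t ‖T‖ hCB (fun j => m2 (T (e j))) (δ / 4) (by linarith)
  obtain ⟨N, K, hK, hlow⟩ := hLOW P t ‖T‖ δ p hCB hδ hdiag hp1 hp2 hp3
  set V : Set ℕ := {n | N ≤ n ∧ (Even n ∨ ∃ a, n = p a)} with hV
  set a : ℕ → ℝ := fun n => if n ∈ V then 1 else 0 with ha
  have ha1 : ∀ n, n ∈ V → a n = 1 := fun n hn => by simp only [ha]; rw [if_pos hn]
  have ha0 : ∀ n, n ∉ V → a n = 0 := fun n hn => by simp only [ha]; rw [if_neg hn]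
  obtain ⟨Pv, hPv1, hPv2, -⟩ := hMULT (WX P) X e e' hI hM a 1 (fun n => by
    by_cases hn : n ∈ V
    · rw [ha1 n hn]; simp
    · rw [ha0 n hn]; simp)
  set R : X →L[ℝ] X := Pv.comp (T.comp Pv) + (ContinuousLinearMap.id ℝ X - Pv) with hR
  have hRx : ∀ x, R x = Pv (T (Pv x)) + (x - Pv x) := fun x => by simp [hR]
  have hr : ∀ i j, e' i (R (e j)) = a i * (a j * t i j) + (if i = j then 1 - a i else 0) := by
    intro i j
    rw [hRx, map_add, map_sub, hPv2, hPv2, hPv1, map_smul, map_smul, hM.bio, smul_eq_mul]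
    by_cases hij : i = j
    · simp only [if_pos hij, ht]; ring
    · simp only [if_neg hij, ht]; ring
  obtain ⟨Q, hQ⟩ := hINV (WX P) X e e' hI hM (hSHRX P X e e' hM) R (K + 1) (by linarith) (by
    intro F x b hb
    set F1 : Finset ℕ := F.filter (fun n => n ∈ V) with hF1
    have h1 : NB (WX P) (mv t F1 x) b := by
      refine NB.le hI hb fun i => ?_
      by_cases hi : i ∈ F1
      · have hi' := Finset.mem_filter.1 hi
        rw [mv_apply_of_mem _ _ _ _ hi, mv_apply_of_mem _ _ _ _ hi'.1]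
        refine le_of_eq (congrArg _ ?_)
        rw [hF1, Finset.sum_filter]
        refine Finset.sum_congr rfl fun j _ => ?_
        rw [hr, ha1 i hi'.2]
        by_cases hj : j ∈ V
        · rw [if_pos hj, ha1 j hj]; simp
        · rw [if_neg hj, ha0 j hj]; simp
      · rw [mv_apply_of_notMem _ _ _ _ hi, abs_zero]
        exact abs_nonneg _
    have h2 : NB (WX P) (cut (↑F1) x) (K * b) :=
      hlow F1 (fun n hn => (Finset.mem_filter.1 hn).2) x b h1
    have h3 : NB (WX P) (cut (↑(F.filter (fun n => n ∉ V))) x) b := by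
      refine NB.le hI hb fun i => ?_
      by_cases hi : i ∈ F.filter (fun n => n ∉ V)
      · have hi' := Finset.mem_filter.1 hi
        unfold cut
        rw [Set.indicator_of_mem (by exact_mod_cast hi), mv_apply_of_mem _ _ _ _ hi'.1]
        refine le_of_eq (congrArg _ ?_)
        rw [Finset.sum_eq_single_of_mem i hi'.1]
        · rw [hr, ha0 i hi'.2, if_pos rfl]; ring
        · intro j _ hj
          rw [hr, ha0 i hi'.2, if_neg (Ne.symm hj)]; ring
      · unfold cut
        rw [Set.indicator_of_notMem (by exact_mod_cast hi), abs_zero]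
        exact abs_nonneg _
    have h4 := NB.add hI h2 h3
    have h5 : (fun n => cut (↑F1) x n + cut (↑(F.filter (fun n => n ∉ V))) x n) =
        cut (↑F) x := by
      funext n
      unfold cut
      simp only [Set.indicator_apply, Finset.mem_coe, hF1, Finset.mem_filter]
      by_cases hn : n ∈ F
      · by_cases hv : n ∈ V
        · simp [hn, hv]
        · simp [hn, hv]
      · simp [hn]
    rw [h5] at h4
    refine NB.mono h4 (le_of_eq ?_)
    ring)
  obtain ⟨A0, B0, hA0, hB0⟩ := hABS P X e e' hM N p hp1 hp2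
  have hPA : ∀ x, Pv (A0 x) = A0 x := by
    intro x
    refine m3 _ _ fun n => ?_
    rw [hPv2]
    by_cases hn : n ∈ V
    · rw [ha1 n hn, one_mul]
    · rw [ha0 n hn, zero_mul, hA0 x n hn]
  refine ⟨B0.comp (Q.comp Pv), A0, ?_⟩
  ext x
  simp only [ContinuousLinearMap.comp_apply, ContinuousLinearMap.id_apply]
  have h1 : Pv (T (A0 x)) = R (A0 x) := by
    rw [hRx, hPA, sub_self, add_zero]
  rw [h1, hQ, hB0]

end Pool.Agent.W683.GZF
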